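import Pool.Agent.Lib.MP_084b88_gt.CW.AllNCW

set_option autoImplicit false

/-!
Chakerian's question (Q1): all bodies of nearly constant width, and all bodies if `c` is close to one.

Idea of the proof.  `κ = 8 / (3 π)`, `τ ∈ [-1,1]` the relative position in a direction.
(1) Space.  For every direction `u` the section function `V₁(K ∩ H)` of the planes orthogonal to `u` is tested with
`√(1 - τ²) + x(u) τ`: Cauchy-Schwarz, Cavalieri, `c V₁² ≤ π A` and the Cauchy-Kubota formulas (all proved here) reduce the
claim to `E ∫_P (√(1 - τ²) - κ + x τ) ≥ - (small)` for the projections `P` of `K`.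
(2) Plane.  Exact formula for `∫_P G(τ) dp` in terms of the support function; its second order part is diagonal in the
Fourier basis. For `P` of nearly constant width all modes are nonnegative up to an error `ε` times the energy; the
modes 2 and 3, which are degenerate, are paid by the variation of the width (the loss in the arithmetic-geometric mean
inequality for `√B`), by the fourth order term, and by the linear test term `x(u) τ` with `x = - (g(u) - <u,O>)/(20 b)`, `g`
the odd part of the support function, `O` a suitable centre (`E (g - <·,O>)² ≤ 24 E g_3²`, `g_3` the planar modes `≥ 3`).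
(3) `c` close to one.  If all sections satisfy `π A ≥ c V₁²` with `c` close to one, then by the planar isoperimetric
inequality applied to `C + s [-v, v]` (a stability estimate) all widths of every section are nearly equal, and so are
all widths of `K`.
-/

open Pointwise MeasureTheory

namespace Pool.Agent.Results.MP_084b88_gt.NearlyConstantWidth

/-- `S` has the Steiner polynomial with intrinsic volumes `V1`, `V2`, `V3`:
`vol(S + tB) = V3 + 2 V2 t + π V1 t² + (4/3) π t³` for all `t ≥ 0`. -/
def Steiner (S : Set (EuclideanSpace ℝ (Fin 3))) (V1 V2 V3 : ℝ) : Prop :=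
  ∀ t : ℝ, 0 ≤ t →
    (volume (S + Metric.closedBall (0 : EuclideanSpace ℝ (Fin 3)) t)).toReal
      = V3 + 2 * V2 * t + Real.pi * V1 * t ^ 2 + 4 / 3 * Real.pi * t ^ 3

/-- Every section of `K` by a plane `H` meeting the interior of `K` satisfies `c V₁² ≤ π V₂`, where
`V₁`, `V₂` are the intrinsic volumes of `K ∩ H` (a planar set: `V₂` is its area). -/
def SectionsGE (K : Set (EuclideanSpace ℝ (Fin 3))) (c : ℝ) : Prop :=
  ∀ H : AffineSubspace ℝ (EuclideanSpace ℝ (Fin 3)),
    Module.finrank ℝ H.direction = 2 → (∃ x ∈ interior K, x ∈ H) →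
      ∀ a1 a2 : ℝ, Steiner (K ∩ (H : Set (EuclideanSpace ℝ (Fin 3)))) a1 a2 0 →
        c * a1 ^ 2 ≤ Real.pi * a2

/-- The support function of `K`. -/
noncomputable def supp (K : Set (EuclideanSpace ℝ (Fin 3))) (u : EuclideanSpace ℝ (Fin 3)) : ℝ :=
  sSup ((fun x => inner ℝ u x) '' K)

/-- The width of `K` in direction `u`. -/
noncomputable def width (K : Set (EuclideanSpace ℝ (Fin 3))) (u : EuclideanSpace ℝ (Fin 3)) : ℝ :=
  supp K u + supp K (-u)

/-- There is an absolute constant `δ > 0` such that the frozen statement holds for the convex body `K` and the number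
`c` whenever the widths of `K` differ by a factor at most `1 + δ`, or `c ≥ 1 - δ`. -/
theorem result :
    ∃ δ : ℝ, 0 < δ ∧ ∀ (K : Set (EuclideanSpace ℝ (Fin 3))), Convex ℝ K → IsCompact K →
      (interior K).Nonempty → ∀ c : ℝ,
      ((∀ u v : EuclideanSpace ℝ (Fin 3), ‖u‖ = 1 → ‖v‖ = 1 →
        width K u ≤ (1 + δ) * width K v) ∨ 1 - δ ≤ c) →
      SectionsGE K c → ∀ V1 V2 : ℝ, Steiner K V1 V2 (volume K).toReal →
        4 * c * V2 ^ 2 ≤ 3 * Real.pi * V1 * (volume K).toReal := by
  obtain ⟨δ, hδ, h⟩ := Pool.Agent.Lib.MP_084b88_gt.CW.allFI2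
  refine ⟨δ, hδ, ?_⟩
  intro K hconv hcomp hint c hw hsec V1 V2 hst
  have hne : K.Nonempty := hint.mono interior_subset
  refine h K ⟨hconv, hcomp, hne⟩ hint c hw ?_ V1 V2 hst
  intro H hH hx a1 a2 ha
  refine hsec H hH hx a1 a2 (fun t ht => ?_)
  rw [ha t ht, zero_add]

end Pool.Agent.Results.MP_084b88_gt.NearlyConstantWidth
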