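import Pool.Agent.Lib.MP_084b88_gt.AY.SYA
import Pool.Agent.Lib.MP_084b88_gt.LG.AllCERT

set_option autoImplicit false

/-!
Chakerian's question (Q1) for all centrally symmetric bodies.

Idea of the proof.  `κ = 8 / (3 π)`, `B(u)` half width of `K` in direction `u`, mean value `b`, `z = (b/B)²`.
(1) Thin bodies: if some half width is at most `0.07 b`, then `K` lies between two close parallel planes, and one test function
(Cavalieri, Cauchy-Schwarz, sections with `c V₁² ≤ π A`) is enough.
(2) Space.  For every direction `u` the section function `V₁(K ∩ H)` of the planes orthogonal to `u` is tested with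
`κ G(z) (1 - w) + w √(1 - s²)`, `s` the relative height of `H`, `w = W(z)` a universal weight. Cauchy-Schwarz, Cavalieri,
`c V₁² ≤ π A` and the Cauchy-Kubota formulas (all proved here) reduce the claim to the planar inequality
`∫ (κ (G(z_t) - 1) A + W(z_t) (q_t - κ A)) dt ≥ 0` for the projections `P` of `K`,
`q_t = ∫_P √(1 - <x,u_t>²/h(t)²) dx`, `A` the area of `P`.
(3) Plane.  Affine image with isotropic Legendre ellipse; there `q_t/A` is controlled by the second moment `x = 3 avg s²` up to a narrow
band, orthogonal directions are coupled, and every even power `s^{2k}` satisfies a weighted inequality (explicit nonnegative two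
point kernel). The remaining inequality depends only on the two axes of the ellipse and is certified by a finite computation in
the kernel.
-/

open Pointwise MeasureTheory

namespace Pool.Agent.Results.MP_084b88_gt.Symmetric

/-- `S` has the Steiner polynomial with intrinsic volumes `V1`, `V2`, `V3`:
`vol(S + tB) = V3 + 2 V2 t + π V1 t² + (4/3) π t³` for all `t ≥ 0`. -/
def Steiner (S : Set (EuclideanSpace ℝ (Fin 3))) (V1 V2 V3 : ℝ) : Prop :=
  ∀ t : ℝ, 0 ≤ t →
    (volume (S + Metric.closedBall (0 : EuclideanSpace ℝ (Fin 3)) t)).toReal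
      = V3 + 2 * V2 * t + Real.pi * V1 * t ^ 2 + 4 / 3 * Real.pi * t ^ 3

/-- Every section of `K` by a plane `H` meeting the interior of `K` satisfies `c V₁² ≤ π V₂`, where
`V₁`, `V₂` are the intrinsic volumes of `K ∩ H` (a planar set: `V₂` is its area). -/
def SectionsGE (K : Set (EuclideanSpace ℝ (Fin 3))) (c : ℝ) : Prop :=
  ∀ H : AffineSubspace ℝ (EuclideanSpace ℝ (Fin 3)),
    Module.finrank ℝ H.direction = 2 → (∃ x ∈ interior K, x ∈ H) →
      ∀ a1 a2 : ℝ, Steiner (K ∩ (H : Set (EuclideanSpace ℝ (Fin 3)))) a1 a2 0 →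
        c * a1 ^ 2 ≤ Real.pi * a2

/-- Q1 for every convex body which is symmetric about some point. -/
theorem result :
    ∀ (K : Set (EuclideanSpace ℝ (Fin 3))), Convex ℝ K → IsCompact K → (interior K).Nonempty →
    (∃ o : EuclideanSpace ℝ (Fin 3), ∀ x ∈ K, (2 : ℝ) • o - x ∈ K) →
    ∀ V1 V2 : ℝ, Steiner K V1 V2 (volume K).toReal →
    ∀ c : ℝ, SectionsGE K c →
      4 * c * V2 ^ 2 ≤ 3 * Real.pi * V1 * (volume K).toReal := by
  intro K hconv hcomp hint hsym V1 V2 hst c hsec
  have hne : K.Nonempty := hint.mono interior_subset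
  refine Pool.Agent.Lib.MP_084b88_gt.AY.symOf Pool.Agent.Lib.MP_084b88_gt.LG.allCERT
    K ⟨hconv, hcomp, hne⟩ hint hsym c ?_ V1 V2 hst
  intro H hH hx a1 a2 ha
  refine hsec H hH hx a1 a2 (fun t ht => ?_)
  rw [ha t ht, zero_add]

end Pool.Agent.Results.MP_084b88_gt.Symmetric
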